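import Pool.Agent.H17.L.R_pool_sql_team_seeded_620a6dc7.Helper478_Bases.LD

/-!
# Large deviations for blocks of digits of a family of numbers `ν n`
-/

set_option autoImplicit false

namespace Pool.Agent.Helper478.Surds

open Finset
open Pool.Agent.H469R2.NK (e norm_e e_add e_zero conj_e)
open Pool.Agent.Helper478.Bases (cos_eq exp_le_one_add)

/-- bounds for the exponential sums with the relevant integer frequencies -/
def FreqBd (S : Finset ℕ) (ν : ℕ → ℝ) (α : ℝ) (b u m : ℕ) (W : ℝ) : Prop :=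
  ∀ Z : ℤ, (b : ℝ) ^ (u + 1) ≤ |(Z : ℝ)| → |(Z : ℝ)| ≤ 2 * (b : ℝ) ^ (u + m) →
    ‖∑ n ∈ S, e (α * Z * ν n)‖ ≤ W

/-- the products -/
noncomputable def HH (lam α φ : ℝ) (b u : ℕ) (ν : ℕ → ℝ) (k n : ℕ) : ℝ :=
  ∏ i ∈ Icc 1 k, (1 + lam * Real.cos (2 * Real.pi * (α * (b : ℝ) ^ (u + i) * ν n + φ)))

lemma HH_zero (lam α φ : ℝ) (b u : ℕ) (ν : ℕ → ℝ) (n : ℕ) : HH lam α φ b u ν 0 n = 1 := by simp [HH]

lemma HH_succ (lam α φ : ℝ) (b u : ℕ) (ν : ℕ → ℝ) (k n : ℕ) : HH lam α φ b u ν (k + 1) n =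
    HH lam α φ b u ν k n *
      (1 + lam * Real.cos (2 * Real.pi * (α * (b : ℝ) ^ (u + (k + 1)) * ν n + φ))) := by
  rw [HH, prod_Icc_succ_top (by omega), ← HH]

lemma stepH (lam α φ : ℝ) (b u : ℕ) (ν : ℕ → ℝ) (k n : ℕ) (Z : ℤ) :
    ((HH lam α φ b u ν (k + 1) n : ℝ) : ℂ) * e (α * Z * ν n) =
      ((HH lam α φ b u ν k n : ℝ) : ℂ) * e (α * Z * ν n) +
      ((lam / 2 : ℝ) * e φ) * (((HH lam α φ b u ν k n : ℝ) : ℂ) *
        e (α * ((Z + (b : ℤ) ^ (u + (k + 1)) : ℤ) : ℝ) * ν n)) +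
      ((lam / 2 : ℝ) * e (-φ)) * (((HH lam α φ b u ν k n : ℝ) : ℂ) *
        e (α * ((Z - (b : ℤ) ^ (u + (k + 1)) : ℤ) : ℝ) * ν n)) := by
  have h1 : e (α * ((Z + (b : ℤ) ^ (u + (k + 1)) : ℤ) : ℝ) * ν n) =
      e (α * Z * ν n) * e (α * (b : ℝ) ^ (u + (k + 1)) * ν n) := by
    rw [← e_add]; congr 1; push_cast; ring
  have h2 : e (α * ((Z - (b : ℤ) ^ (u + (k + 1)) : ℤ) : ℝ) * ν n) =
      e (α * Z * ν n) * e (-(α * (b : ℝ) ^ (u + (k + 1)) * ν n)) := by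
    rw [← e_add]; congr 1; push_cast; ring
  have h3 : e (α * (b : ℝ) ^ (u + (k + 1)) * ν n + φ) =
      e (α * (b : ℝ) ^ (u + (k + 1)) * ν n) * e φ := e_add _ _
  have h4 : e (-(α * (b : ℝ) ^ (u + (k + 1)) * ν n + φ)) =
      e (-(α * (b : ℝ) ^ (u + (k + 1)) * ν n)) * e (-φ) := by
    rw [← e_add]; congr 1; ring
  rw [HH_succ, h1, h2, Complex.ofReal_mul, Complex.ofReal_add, Complex.ofReal_mul, Complex.ofReal_one,
    cos_eq, h3, h4]
  push_cast
  ring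

lemma twistedH (lam α φ : ℝ) (h0 : 0 ≤ lam) (b u m : ℕ) (hb : 2 ≤ b) (S : Finset ℕ) (ν : ℕ → ℝ) (W : ℝ)
    (hW : FreqBd S ν α b u m W) : ∀ k : ℕ, ∀ Z : ℤ, Z ≠ 0 → (b : ℤ) ^ (u + (k + 1)) ∣ Z →
    |Z| + (b : ℤ) ^ (u + (k + 1)) ≤ 2 * (b : ℤ) ^ (u + m) →
    ‖∑ n ∈ S, ((HH lam α φ b u ν k n : ℝ) : ℂ) * e (α * Z * ν n)‖ ≤ (1 + lam) ^ k * W := by
  have hb0 : (0 : ℤ) < b := by exact_mod_cast (by omega : 0 < b)
  have hb2 : (2 : ℤ) ≤ b := by exact_mod_cast hb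
  intro k
  induction k with
  | zero =>
    intro Z hZ hdvd hle
    simp only [HH_zero, Complex.ofReal_one, one_mul, pow_zero]
    refine hW Z ?_ ?_
    · have h1 := Int.le_of_dvd (abs_pos.2 hZ) ((dvd_abs _ _).2 hdvd)
      have h2 : (((b : ℤ) ^ (u + (0 + 1)) : ℤ) : ℝ) ≤ ((|Z| : ℤ) : ℝ) := by exact_mod_cast h1
      push_cast at h2
      simpa using h2
    · have h1 : |Z| ≤ 2 * (b : ℤ) ^ (u + m) := by
        have : (0 : ℤ) < (b : ℤ) ^ (u + (0 + 1)) := by positivity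
        linarith
      have h2 : ((|Z| : ℤ) : ℝ) ≤ ((2 * (b : ℤ) ^ (u + m) : ℤ) : ℝ) := by exact_mod_cast h1
      push_cast at h2
      exact h2
  | succ k ih =>
    intro Z hZ hdvd hle
    simp_rw [stepH]
    rw [sum_add_distrib, sum_add_distrib, ← mul_sum, ← mul_sum]
    have hpow : (b : ℤ) ^ (u + (k + 1 + 1)) = b * (b : ℤ) ^ (u + (k + 1)) := by
      rw [← add_assoc, pow_succ]; ring
    have hp0 : (0 : ℤ) < (b : ℤ) ^ (u + (k + 1)) := by positivity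
    have hdvd' : (b : ℤ) ^ (u + (k + 1)) ∣ Z := (pow_dvd_pow _ (by omega)).trans hdvd
    have hnd : ¬ (b : ℤ) ^ (u + (k + 1 + 1)) ∣ (b : ℤ) ^ (u + (k + 1)) := by
      intro h
      have := Int.le_of_dvd hp0 h
      rw [hpow] at this
      nlinarith
    have hge : 2 * (b : ℤ) ^ (u + (k + 1)) ≤ (b : ℤ) ^ (u + (k + 1 + 1)) := by rw [hpow]; nlinarith
    have e1 := ih Z hZ hdvd' (by linarith)
    have e2 := ih (Z + (b : ℤ) ^ (u + (k + 1))) (by
        intro h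
        apply hnd
        have : (b : ℤ) ^ (u + (k + 1)) = -Z := by linarith
        rw [this]
        exact (dvd_neg).2 hdvd) (dvd_add hdvd' (dvd_refl _)) (by
        have := abs_add_le Z ((b : ℤ) ^ (u + (k + 1)))
        rw [abs_of_pos hp0] at this
        linarith)
    have e3 := ih (Z - (b : ℤ) ^ (u + (k + 1))) (by
        intro h
        apply hnd
        have : (b : ℤ) ^ (u + (k + 1)) = Z := by linarith
        rw [this]
        exact hdvd) (dvd_sub hdvd' (dvd_refl _)) (by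
        have := abs_sub Z ((b : ℤ) ^ (u + (k + 1)))
        rw [abs_of_pos hp0] at this
        linarith)
    have hl : ∀ ψ : ℝ, ‖((lam / 2 : ℝ) : ℂ) * e ψ‖ = lam / 2 := by
      intro ψ
      rw [norm_mul, norm_e, mul_one, Complex.norm_real, Real.norm_eq_abs, abs_of_nonneg (by positivity)]
    have hl2 : ∀ (ψ : ℝ) (w : ℂ), ‖((lam / 2 : ℝ) : ℂ) * e ψ * w‖ = lam / 2 * ‖w‖ := by
      intro ψ w
      rw [norm_mul, hl]
    refine (norm_add_le _ _).trans ?_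
    refine (add_le_add (norm_add_le _ _) le_rfl).trans ?_
    rw [hl2, hl2]
    have e4 := mul_le_mul_of_nonneg_left e2 (by positivity : 0 ≤ lam / 2)
    have e5 := mul_le_mul_of_nonneg_left e3 (by positivity : 0 ≤ lam / 2)
    rw [pow_succ]
    linarith

lemma HH_nonneg (lam α φ : ℝ) (h0 : 0 ≤ lam) (h1 : lam ≤ 1) (b u : ℕ) (ν : ℕ → ℝ) (k n : ℕ) :
    0 ≤ HH lam α φ b u ν k n := by
  rw [HH]
  refine prod_nonneg fun i _ => ?_
  have := Real.neg_one_le_cos (2 * Real.pi * (α * (b : ℝ) ^ (u + i) * ν n + φ))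
  nlinarith

lemma meanH (lam α φ : ℝ) (h0 : 0 ≤ lam) (b u m : ℕ) (hb : 2 ≤ b) (S : Finset ℕ) (ν : ℕ → ℝ) (W : ℝ)
    (hW : FreqBd S ν α b u m W) : ∀ k : ℕ, k ≤ m →
    ∑ n ∈ S, HH lam α φ b u ν k n ≤ S.card + ((1 + lam) ^ k - 1) * W := by
  have hb0 : (0 : ℤ) < b := by exact_mod_cast (by omega : 0 < b)
  intro k
  induction k with
  | zero =>
    intro _
    simp [HH_zero]
  | succ k ih =>
    intro hk
    have h1 := ih (by omega)
    have hp0 : (0 : ℤ) < (b : ℤ) ^ (u + (k + 1)) := by positivity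
    have h2 : ∀ n : ℕ, HH lam α φ b u ν (k + 1) n = HH lam α φ b u ν k n +
        (((lam / 2 : ℝ) * e φ) * (((HH lam α φ b u ν k n : ℝ) : ℂ) *
          e (α * (((b : ℤ) ^ (u + (k + 1)) : ℤ) : ℝ) * ν n)) +
        ((lam / 2 : ℝ) * e (-φ)) * (((HH lam α φ b u ν k n : ℝ) : ℂ) *
          e (α * ((-(b : ℤ) ^ (u + (k + 1)) : ℤ) : ℝ) * ν n))).re := by
      intro n
      have h3 := stepH lam α φ b u ν k n 0
      simp only [Int.cast_zero, mul_zero, zero_mul, e_zero, mul_one, zero_add, zero_sub] at h3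
      have h4 := congrArg Complex.re h3
      rw [Complex.ofReal_re, add_assoc, Complex.add_re, Complex.ofReal_re] at h4
      exact h4
    simp_rw [h2]
    rw [sum_add_distrib, ← Complex.re_sum, sum_add_distrib, ← mul_sum, ← mul_sum]
    have hl : ∀ ψ : ℝ, ‖((lam / 2 : ℝ) : ℂ) * e ψ‖ = lam / 2 := by
      intro ψ
      rw [norm_mul, norm_e, mul_one, Complex.norm_real, Real.norm_eq_abs, abs_of_nonneg (by positivity)]
    have hmono : (b : ℤ) ^ (u + (k + 1)) ≤ (b : ℤ) ^ (u + m) :=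
      pow_le_pow_right₀ (by linarith) (by omega)
    have e2 := twistedH lam α φ h0 b u m hb S ν W hW k ((b : ℤ) ^ (u + (k + 1))) hp0.ne' (dvd_refl _)
      (by rw [abs_of_pos hp0]; linarith)
    have e3 := twistedH lam α φ h0 b u m hb S ν W hW k (-(b : ℤ) ^ (u + (k + 1)))
      (neg_ne_zero.2 hp0.ne') ((dvd_neg).2 (dvd_refl _))
      (by rw [abs_neg, abs_of_pos hp0]; linarith)
    have e4 : (((lam / 2 : ℝ) : ℂ) * e φ * ∑ n ∈ S, (((HH lam α φ b u ν k n : ℝ) : ℂ) *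
          e (α * (((b : ℤ) ^ (u + (k + 1)) : ℤ) : ℝ) * ν n)) +
        ((lam / 2 : ℝ) : ℂ) * e (-φ) * ∑ n ∈ S, (((HH lam α φ b u ν k n : ℝ) : ℂ) *
          e (α * ((-(b : ℤ) ^ (u + (k + 1)) : ℤ) : ℝ) * ν n))).re ≤ lam * ((1 + lam) ^ k * W) := by
      have hl2 : ∀ (ψ : ℝ) (w : ℂ), ‖((lam / 2 : ℝ) : ℂ) * e ψ * w‖ = lam / 2 * ‖w‖ := by
        intro ψ w
        rw [norm_mul, hl]
      refine (Complex.re_le_norm _).trans ?_
      refine (norm_add_le _ _).trans ?_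
      rw [hl2, hl2]
      have e4 := mul_le_mul_of_nonneg_left e2 (by positivity : 0 ≤ lam / 2)
      have e5 := mul_le_mul_of_nonneg_left e3 (by positivity : 0 ≤ lam / 2)
      linarith
    rw [pow_succ]
    linarith

/-- the deviations of the cosine sums -/
lemma dev_cosH (α φ η : ℝ) (hη0 : 0 < η) (hη1 : η ≤ 1) (b u m : ℕ) (hb : 2 ≤ b) (S : Finset ℕ)
    (ν : ℕ → ℝ) (W : ℝ) (hW : FreqBd S ν α b u m W) (hW0 : 0 ≤ W) :
    ((S.filter fun n : ℕ => η * m ≤ ∑ i ∈ Icc 1 m,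
      Real.cos (2 * Real.pi * (α * (b : ℝ) ^ (u + i) * ν n + φ))).card : ℝ) ≤
      Real.exp (-(η ^ 2 * m / 8)) * (S.card + 2 ^ m * W) := by
  set lam : ℝ := η / 4 with hlam
  have hl0 : 0 ≤ lam := by positivity
  have hl1 : lam ≤ 1 / 4 := by rw [hlam]; linarith
  set T := S.filter fun n : ℕ => η * m ≤ ∑ i ∈ Icc 1 m,
      Real.cos (2 * Real.pi * (α * (b : ℝ) ^ (u + i) * ν n + φ)) with hT
  have h1 : ∀ n ∈ T, Real.exp (η ^ 2 * m / 8) ≤ HH lam α φ b u ν m n := by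
    intro n hn
    rw [hT, mem_filter] at hn
    have h2 : ∏ i ∈ Icc 1 m, Real.exp (lam * Real.cos (2 * Real.pi *
        (α * (b : ℝ) ^ (u + i) * ν n + φ)) - 2 * lam ^ 2) ≤ HH lam α φ b u ν m n := by
      rw [HH]
      refine prod_le_prod (fun i _ => (Real.exp_pos _).le) fun i _ => ?_
      set c := Real.cos (2 * Real.pi * (α * (b : ℝ) ^ (u + i) * ν n + φ)) with hc
      have hc1 : |c| ≤ 1 := Real.abs_cos_le_one _
      have hc2 : |lam * c| ≤ 1 / 2 := by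
        rw [abs_mul, abs_of_nonneg hl0]
        nlinarith [abs_nonneg c]
      refine le_trans ?_ (exp_le_one_add (lam * c) hc2)
      rw [Real.exp_le_exp]
      have hc3 : c ^ 2 ≤ 1 := by
        rw [← sq_abs]; nlinarith [abs_nonneg c]
      nlinarith [mul_nonneg (sq_nonneg lam) (by linarith : 0 ≤ 1 - c ^ 2)]
    refine le_trans ?_ h2
    rw [← Real.exp_sum, Real.exp_le_exp, sum_sub_distrib, ← mul_sum, sum_const, Nat.card_Icc,
      Nat.add_sub_cancel, nsmul_eq_mul]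
    have h3 := mul_le_mul_of_nonneg_left hn.2 hl0
    have h4 : η ^ 2 * m / 8 = lam * (η * m) - m * (2 * lam ^ 2) := by rw [hlam]; ring
    linarith
  have h2 : (T.card : ℝ) * Real.exp (η ^ 2 * m / 8) ≤ S.card + 2 ^ m * W := by
    calc (T.card : ℝ) * Real.exp (η ^ 2 * m / 8) = ∑ n ∈ T, Real.exp (η ^ 2 * m / 8) := by
          rw [sum_const, nsmul_eq_mul]
      _ ≤ ∑ n ∈ T, HH lam α φ b u ν m n := sum_le_sum h1
      _ ≤ ∑ n ∈ S, HH lam α φ b u ν m n :=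
          sum_le_sum_of_subset_of_nonneg (filter_subset _ _)
            fun n _ _ => HH_nonneg lam α φ hl0 (by linarith) b u ν m n
      _ ≤ S.card + ((1 + lam) ^ m - 1) * W := meanH lam α φ hl0 b u m hb S ν W hW m le_rfl
      _ ≤ S.card + 2 ^ m * W := by
          have h3 : (1 + lam) ^ m ≤ 2 ^ m := pow_le_pow_left₀ (by positivity) (by linarith) m
          nlinarith
  have h3 : (T.card : ℝ) = Real.exp (-(η ^ 2 * m / 8)) * (T.card * Real.exp (η ^ 2 * m / 8)) := by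
    rw [mul_comm (T.card : ℝ), ← mul_assoc, ← Real.exp_add, neg_add_cancel, Real.exp_zero, one_mul]
  rw [h3]
  exact mul_le_mul_of_nonneg_left h2 (Real.exp_pos _).le

/-- the deviations of the exponential sums -/
lemma devH (α η : ℝ) (hη0 : 0 < η) (hη1 : η ≤ 1) (b u m : ℕ) (hb : 2 ≤ b) (S : Finset ℕ)
    (ν : ℕ → ℝ) (W : ℝ) (hW : FreqBd S ν α b u m W) (hW0 : 0 ≤ W) :
    ((S.filter fun n : ℕ => 2 * η * m < ‖∑ i ∈ Icc 1 m, e (α * (b : ℝ) ^ (u + i) * ν n)‖).card : ℝ) ≤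
      4 * (Real.exp (-(η ^ 2 * m / 8)) * (S.card + 2 ^ m * W)) := by
  classical
  have h0 := dev_cosH α 0 η hη0 hη1 b u m hb S ν W hW hW0
  have h1 := dev_cosH α (1 / 2) η hη0 hη1 b u m hb S ν W hW hW0
  have h2 := dev_cosH α (-(1 / 4)) η hη0 hη1 b u m hb S ν W hW hW0
  have h3 := dev_cosH α (1 / 4) η hη0 hη1 b u m hb S ν W hW hW0
  set F : ℝ → Finset ℕ := fun φ => S.filter fun n : ℕ => η * m ≤ ∑ i ∈ Icc 1 m,
      Real.cos (2 * Real.pi * (α * (b : ℝ) ^ (u + i) * ν n + φ)) with hF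
  have hsub : S.filter (fun n : ℕ => 2 * η * m < ‖∑ i ∈ Icc 1 m, e (α * (b : ℝ) ^ (u + i) * ν n)‖) ⊆
      (F 0 ∪ F (1 / 2)) ∪ (F (-(1 / 4)) ∪ F (1 / 4)) := by
    intro n hn
    rw [mem_filter] at hn
    set z := ∑ i ∈ Icc 1 m, e (α * (b : ℝ) ^ (u + i) * ν n) with hz
    have hre : ∀ t : ℝ, (e t).re = Real.cos (2 * Real.pi * t) := by
      intro t
      unfold Pool.Agent.H469R2.NK.e
      rw [Complex.exp_ofReal_mul_I_re]
    have him : ∀ t : ℝ, (e t).im = Real.sin (2 * Real.pi * t) := by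
      intro t
      unfold Pool.Agent.H469R2.NK.e
      rw [Complex.exp_ofReal_mul_I_im]
    have a0 : ∑ i ∈ Icc 1 m, Real.cos (2 * Real.pi * (α * (b : ℝ) ^ (u + i) * ν n + 0)) = z.re := by
      rw [hz, Complex.re_sum]
      refine sum_congr rfl fun i _ => ?_
      rw [hre, add_zero]
    have a1 : ∑ i ∈ Icc 1 m, Real.cos (2 * Real.pi * (α * (b : ℝ) ^ (u + i) * ν n + 1 / 2)) = -z.re := by
      rw [hz, Complex.re_sum, ← sum_neg_distrib]
      refine sum_congr rfl fun i _ => ?_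
      rw [hre, mul_add, show 2 * Real.pi * (1 / 2) = Real.pi by ring, Real.cos_add_pi]
    have a2 : ∑ i ∈ Icc 1 m, Real.cos (2 * Real.pi * (α * (b : ℝ) ^ (u + i) * ν n + -(1 / 4))) =
        z.im := by
      rw [hz, Complex.im_sum]
      refine sum_congr rfl fun i _ => ?_
      rw [him, mul_add, show 2 * Real.pi * (-(1 / 4)) = -(Real.pi / 2) by ring, ← sub_eq_add_neg,
        Real.cos_sub_pi_div_two]
    have a3 : ∑ i ∈ Icc 1 m, Real.cos (2 * Real.pi * (α * (b : ℝ) ^ (u + i) * ν n + 1 / 4)) = -z.im := by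
      rw [hz, Complex.im_sum, ← sum_neg_distrib]
      refine sum_congr rfl fun i _ => ?_
      rw [him, mul_add, show 2 * Real.pi * (1 / 4) = Real.pi / 2 by ring, Real.cos_add_pi_div_two]
    have h4 : ‖z‖ ≤ |z.re| + |z.im| := Complex.norm_le_abs_re_add_abs_im z
    have h5 : η * m ≤ |z.re| ∨ η * m ≤ |z.im| := by
      by_contra hcon
      push Not at hcon
      have := hn.2
      linarith [hcon.1, hcon.2]
    simp only [mem_union, hF, mem_filter]
    rcases h5 with h5 | h5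
    · rcases le_abs.1 h5 with h6 | h6
      · exact Or.inl (Or.inl ⟨hn.1, by rw [a0]; exact h6⟩)
      · exact Or.inl (Or.inr ⟨hn.1, by rw [a1]; exact h6⟩)
    · rcases le_abs.1 h5 with h6 | h6
      · exact Or.inr (Or.inl ⟨hn.1, by rw [a2]; exact h6⟩)
      · exact Or.inr (Or.inr ⟨hn.1, by rw [a3]; exact h6⟩)
  have h4 : ((S.filter fun n : ℕ => 2 * η * m < ‖∑ i ∈ Icc 1 m, e (α * (b : ℝ) ^ (u + i) * ν n)‖).card : ℝ)
      ≤ ((F 0).card + (F (1 / 2)).card) + ((F (-(1 / 4))).card + (F (1 / 4)).card) := by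
    have h5 := (card_le_card hsub).trans ((card_union_le _ _).trans
      (add_le_add (card_union_le _ _) (card_union_le _ _)))
    exact_mod_cast h5
  linarith

/-- from blocks of lengths in `[m, 2 m)` to all long windows -/
lemma windows (z : ℕ → ℂ) (m L : ℕ) (η : ℝ) (hm : 1 ≤ m)
    (h : ∀ u k : ℕ, m ≤ k → k < 2 * m → u + k ≤ L → ‖∑ i ∈ Icc 1 k, z (u + i)‖ ≤ η * k) :
    ∀ k u : ℕ, m ≤ k → u + k ≤ L → ‖∑ i ∈ Icc 1 k, z (u + i)‖ ≤ η * k := by
  intro k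
  induction k using Nat.strong_induction_on with
  | _ k ih =>
    intro u hmk huk
    rcases Nat.lt_or_ge k (2 * m) with h1 | h1
    · exact h u k hmk h1 huk
    · have e1 := h u m le_rfl (by omega) (by omega)
      have e2 := ih (k - m) (by omega) (u + m) (by omega) (by omega)
      have e3 : ∑ i ∈ Icc 1 k, z (u + i) = ∑ i ∈ Icc 1 m, z (u + i) +
          ∑ i ∈ Icc 1 (k - m), z (u + m + i) := by
        have f1 : ∀ j : ℕ, Icc 1 j = Ico 1 (j + 1) := fun j => rfl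
        rw [f1, f1, f1, ← sum_Ico_consecutive (fun i => z (u + i)) (by omega : 1 ≤ m + 1)
          (by omega : m + 1 ≤ k + 1)]
        congr 1
        have f2 : Ico (m + 1) (k + 1) = Ico (1 + m) ((k - m + 1) + m) := by congr 1 <;> omega
        rw [f2, ← Finset.sum_Ico_add' (fun i => z (u + i))]
        refine sum_congr rfl fun i _ => ?_
        congr 1; ring
      rw [e3]
      refine (norm_add_le _ _).trans ?_
      have e4 : ((k - m : ℕ) : ℝ) = k - m := by rw [Nat.cast_sub (by omega)]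
      rw [e4] at e2
      linarith

end Pool.Agent.Helper478.Surds
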