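import Pool.Agent.H17.L.R_pool_sql_team_seeded_620a6dc7.Helper478_Surds.Tw2
import Pool.Agent.H17.L.R_pool_sql_team_seeded_620a6dc7.Helper478_Bases.VkWeyl
import Pool.Agent.H17.L.R_seed8.Y70.VK.Tn

/-!
# The bilinear sums are small, for general coefficients of the right size

Adapted from `Pool.Agent.Y70.VK.Tn`.
-/

set_option autoImplicit false

namespace Pool.Agent.Helper478.Surds

open Pool.Agent.Y957.VK Finset
open Pool.Agent.Y70.VK (TT_le pow_le_exp card_good sum_two_mul log_one_add final)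

/-- the constant -/
def consC (C1 : ℕ) : ℕ := 2 * C1 * 153 ^ C1 + 40000000 + C1

/-- the constants -/
theorem consts2 {κ r : ℝ} (C1 : ℕ) (A : ℝ) (hκ : 1 / 2 ≤ κ) (hr0 : 0 ≤ r) (hr : r ≤ 17 * κ) (hA : 0 ≤ A) :
    2 * (C1 * (r + 8 * r) ^ C1) + r * (1000000 * (1 + κ) + A) + 1700 * r ≤
      (1 + A) * (((consC C1 : ℕ) : ℝ) * (1 + κ) ^ (consC C1)) := by
  obtain ⟨C, hC⟩ : ∃ C : ℕ, C = consC C1 := ⟨_, rfl⟩
  rw [← hC]
  have hC' : C = 2 * C1 * 153 ^ C1 + 40000000 + C1 := hC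
  have hu : (1 : ℝ) ≤ 1 + κ := by linarith
  have h1 : (r + 8 * r) ^ C1 ≤ 153 ^ C1 * (1 + κ) ^ C := by
    calc (r + 8 * r) ^ C1 ≤ (153 * (1 + κ)) ^ C1 :=
          pow_le_pow_left₀ (by linarith) (by linarith) _
      _ = 153 ^ C1 * (1 + κ) ^ C1 := mul_pow _ _ _
      _ ≤ 153 ^ C1 * (1 + κ) ^ C := by
          gcongr
          omega
  have h2 : r * (1 + κ) ≤ 17 * (1 + κ) ^ C := by
    calc r * (1 + κ) ≤ (17 * (1 + κ)) * (1 + κ) := by
          gcongr
          linarith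
      _ = 17 * (1 + κ) ^ 2 := by ring
      _ ≤ 17 * (1 + κ) ^ C := by
          gcongr
          omega
  have h3 : r ≤ 17 * (1 + κ) ^ C := by
    calc r ≤ 17 * (1 + κ) ^ 1 := by rw [pow_one]; linarith
      _ ≤ 17 * (1 + κ) ^ C := by
          gcongr
          omega
  have hc1 : (0 : ℝ) ≤ C1 := Nat.cast_nonneg _
  have hX : (0 : ℝ) ≤ (1 + κ) ^ C := by positivity
  calc 2 * (C1 * (r + 8 * r) ^ C1) + r * (1000000 * (1 + κ) + A) + 1700 * r
      = 2 * C1 * (r + 8 * r) ^ C1 + 1000000 * (r * (1 + κ)) + A * r + 1700 * r := by ring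
    _ ≤ 2 * C1 * (153 ^ C1 * (1 + κ) ^ C) + 1000000 * (17 * (1 + κ) ^ C) + A * (17 * (1 + κ) ^ C) +
        1700 * (17 * (1 + κ) ^ C) := by gcongr
    _ = (2 * C1 * 153 ^ C1 + 17028900 + 17 * A) * (1 + κ) ^ C := by ring
    _ ≤ ((1 + A) * C) * (1 + κ) ^ C := by
        refine mul_le_mul_of_nonneg_right ?_ hX
        rw [hC']
        push_cast
        have : (0 : ℝ) ≤ 2 * C1 * 153 ^ C1 := by positivity
        nlinarith
    _ = _ := by ring

theorem tn2 : ∃ C : ℕ, ∀ (N M r : ℕ) (κ A : ℝ) (α : ℕ → ℝ), 2 ≤ N → 1 / 2 ≤ κ → 0 ≤ A →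
    r = ⌈5 * κ⌉₊ + 5 → M = ⌊(N : ℝ) ^ (2 / 5 : ℝ)⌋₊ →
    (∀ j ∈ Finset.Icc 1 r, |α j| ≤ (N : ℝ) ^ κ / (6 * (N : ℝ) ^ j) ∧
      (N : ℝ) ^ κ / (N : ℝ) ^ j ≤ Real.exp A * |α j|) →
    ‖TT r M α‖ ≤ Real.exp ((1 + A) * (C * (1 + κ) ^ C)) * (M : ℝ) ^ 2 *
      (N : ℝ) ^ (-(1 / 10 ^ 10 / (1 + κ) ^ 2) : ℝ) := by
  have h2 := Pool.Agent.Helper478.Bases.dbl
  obtain ⟨C1, hV⟩ := Pool.Agent.Helper478.Bases.vmvt
  refine ⟨consC C1, ?_⟩
  intro N M r κ A α hN hκ hA hr hM hα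
  have hκ0 : 0 < κ := by linarith
  have hNr : (2 : ℝ) ≤ N := by exact_mod_cast hN
  have hN0 : (0 : ℝ) < N := by linarith
  have hr1 : 5 * κ + 5 ≤ (r : ℝ) := by
    rw [hr]
    push_cast
    have := Nat.le_ceil (5 * κ)
    linarith
  have hr2 : (r : ℝ) ≤ 5 * κ + 6 := by
    rw [hr]
    push_cast
    have := Nat.ceil_lt_add_one (a := 5 * κ) (by linarith)
    linarith
  have hr17 : (r : ℝ) ≤ 17 * κ := by linarith
  have hr0 : (0 : ℝ) ≤ r := Nat.cast_nonneg _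
  have hrN : 2 ≤ r := by omega
  have hM1 : 1 ≤ M := by
    rw [hM, Nat.one_le_floor_iff]
    exact Real.one_le_rpow (by linarith) (by norm_num)
  have hM1r : (1 : ℝ) ≤ M := by exact_mod_cast hM1
  have hMle : (M : ℝ) ≤ (N : ℝ) ^ (2 / 5 : ℝ) := by
    rw [hM]
    exact Nat.floor_le (by positivity)
  obtain ⟨L, hL⟩ : ∃ L : ℝ, L = Real.log N := ⟨_, rfl⟩
  obtain ⟨l, hl⟩ : ∃ l : ℝ, l = Real.log M := ⟨_, rfl⟩
  have hL0 : 0 ≤ L := by rw [hL]; exact Real.log_nonneg (by linarith)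
  have hl0 : 0 ≤ l := by rw [hl]; exact Real.log_nonneg hM1r
  have hlL : l ≤ 2 / 5 * L := by
    rw [hl, hL, ← Real.log_rpow hN0]
    exact Real.log_le_log (by linarith) hMle
  have hexpN : ∀ a : ℝ, (N : ℝ) ^ a = Real.exp (a * L) := by
    intro a
    rw [Real.rpow_def_of_pos hN0, hL, mul_comm]
  have hexpM : (M : ℝ) ^ 2 = Real.exp (2 * l) := by
    rw [hl, mul_comm, Real.exp_mul, Real.exp_log (by linarith)]
    norm_cast
  obtain ⟨C, hC⟩ : ∃ C : ℕ, C = consC C1 := ⟨_, rfl⟩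
  have hcon := consts2 C1 A hκ hr0 hr17 hA
  rw [← hC] at hcon ⊢
  rcases (norm_nonneg (TT r M α)).eq_or_lt with hT | hT
  · rw [← hT]
    positivity
  suffices hmain : Real.log ‖TT r M α‖ ≤
      2 * l + (1 + A) * (C * (1 + κ) ^ C) - 1 / 10 ^ 10 / (1 + κ) ^ 2 * L by
    rw [hexpM, hexpN, ← Real.exp_add, ← Real.exp_add, ← Real.exp_log hT]
    apply Real.exp_le_exp.2
    linarith
  by_cases hs : ((9 * r ^ 2 : ℕ) : ℝ) ≤ 3 * (N : ℝ) ^ (κ / 5)
  · -- main case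
    have hJ := hV r (8 * r) M hrN hM1
    have hD := h2 (9 * r ^ 2) r M α (by
      have : 0 < r ^ 2 := by positivity
      omega) (by omega) hM1
    have hrs : r ^ 2 + r * (8 * r) = 9 * r ^ 2 := by ring
    rw [hrs] at hJ
    obtain ⟨e, he⟩ : ∃ e : ℝ, e = 2 * ((r : ℝ) ^ 2 + r * (8 * r)) - r * (r + 1) / 2 +
      r * (r + 1) / 2 * (1 - 1 / (r : ℝ)) ^ (8 * r) := ⟨_, rfl⟩
    have hJ' : (J (9 * r ^ 2) r M : ℝ) ≤ Real.exp (C1 * ((r : ℝ) + 8 * r) ^ C1) * (M : ℝ) ^ e := by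
      rw [he]
      refine hJ.trans (le_of_eq ?_)
      push_cast
      rfl
    have hTpow : 0 < ‖TT r M α‖ ^ (4 * (9 * r ^ 2) ^ 2) := pow_pos hT _
    have hprod : 0 < (M : ℝ) ^ (8 * (9 * r ^ 2) ^ 2 - 4 * (9 * r ^ 2)) *
        (J (9 * r ^ 2) r M : ℝ) ^ 2 * ∏ j ∈ Finset.Icc 1 r, WJ (9 * r ^ 2) M j (α j) :=
      hTpow.trans_le hD
    have hJpos : (0 : ℝ) < J (9 * r ^ 2) r M := by
      rcases (Nat.cast_nonneg (α := ℝ) (J (9 * r ^ 2) r M)).eq_or_lt with h | h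
      · rw [← h] at hprod
        simp at hprod
      · exact h
    have hWnn : ∀ j, 0 ≤ WJ (9 * r ^ 2) M j (α j) := by
      intro j
      unfold WJ
      refine Finset.sum_nonneg fun u _ => ?_
      unfold mn dz
      split_ifs
      · positivity
      · refine le_min (by positivity) ?_
        have := abs_nonneg (α j * u - round (α j * u))
        positivity
    have hWpos : ∀ j ∈ Finset.Icc 1 r, 0 < WJ (9 * r ^ 2) M j (α j) := by
      intro j hj
      rcases (hWnn j).eq_or_lt with h | h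
      · rw [Finset.prod_eq_zero hj h.symm, mul_zero] at hprod
        exact absurd hprod (lt_irrefl _)
      · exact h
    have hlogJ : Real.log (J (9 * r ^ 2) r M : ℝ) ≤ C1 * ((r : ℝ) + 8 * r) ^ C1 + e * l := by
      refine (Real.log_le_log hJpos hJ').trans (le_of_eq ?_)
      rw [Real.log_mul (Real.exp_pos _).ne' (Real.rpow_pos_of_pos (by linarith) _).ne',
        Real.log_exp, Real.log_rpow (by linarith), hl]
    have hlog1L : 0 ≤ Real.log (1 + L) := Real.log_nonneg (by linarith)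
    have hlogW : ∀ j ∈ Finset.Icc 1 r, Real.log (WJ (9 * r ^ 2) M j (α j)) ≤
        2 * (j : ℝ) * l + (1000000 * (1 + κ) + A) + Real.log (1 + L) -
          (if 2 * κ ≤ j ∧ (j : ℝ) ≤ 3 * κ + 1 / 2 then κ / 5 * L else 0) := by
      intro j hj
      obtain ⟨k1, k2⟩ := tw2 N M j r (9 * r ^ 2) κ A α hN hκ hA hr rfl hM hj (hα j hj).1 (hα j hj).2
      have hM2j : Real.log ((M : ℝ) ^ (2 * j)) = 2 * (j : ℝ) * l := by
        rw [Real.log_pow, hl]
        push_cast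
        ring
      have hMp : (0 : ℝ) < (M : ℝ) ^ (2 * j) := by positivity
      split_ifs with hg
      · have k3 := k2 hs hg.1 hg.2
        refine (Real.log_le_log (hWpos j hj) k3).trans (le_of_eq ?_)
        have k4 : (0 : ℝ) < 1 + Real.log N := by rw [← hL]; linarith
        rw [Real.log_mul hMp.ne' (by positivity), Real.log_mul (by positivity) (by positivity),
          Real.log_mul (Real.exp_pos _).ne' k4.ne', Real.log_exp, hM2j, Real.log_rpow hN0, ← hL]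
        ring
      · refine (Real.log_le_log (hWpos j hj) k1).trans ?_
        rw [Real.log_mul hMp.ne' (Real.exp_pos _).ne', Real.log_exp, hM2j]
        linarith
    obtain ⟨g, hg⟩ : ∃ g : ℝ, g = (((Finset.Icc 1 r).filter fun j : ℕ =>
      2 * κ ≤ j ∧ (j : ℝ) ≤ 3 * κ + 1 / 2).card : ℝ) := ⟨_, rfl⟩
    have hsum : ∑ j ∈ Finset.Icc 1 r, Real.log (WJ (9 * r ^ 2) M j (α j)) ≤
        r * (r + 1) * l + r * ((1000000 * (1 + κ) + A)) + r * Real.log (1 + L) - g * (κ / 5 * L) := by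
      refine (Finset.sum_le_sum hlogW).trans (le_of_eq ?_)
      rw [Finset.sum_sub_distrib, Finset.sum_add_distrib, Finset.sum_add_distrib,
        ← Finset.sum_mul, sum_two_mul, Finset.sum_const, Finset.sum_const, Nat.card_Icc,
        ← Finset.sum_filter, Finset.sum_const, hg]
      simp only [Nat.add_sub_cancel, nsmul_eq_mul]
    have hlogD : ((4 * (9 * r ^ 2) ^ 2 : ℕ) : ℝ) * Real.log ‖TT r M α‖ ≤
        ((8 * (9 * r ^ 2) ^ 2 - 4 * (9 * r ^ 2) : ℕ) : ℝ) * l +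
          2 * Real.log (J (9 * r ^ 2) r M : ℝ) +
          ∑ j ∈ Finset.Icc 1 r, Real.log (WJ (9 * r ^ 2) M j (α j)) := by
      have k1 := Real.log_le_log hTpow hD
      have k2 : (0 : ℝ) < ∏ j ∈ Finset.Icc 1 r, WJ (9 * r ^ 2) M j (α j) :=
        Finset.prod_pos hWpos
      rw [Real.log_mul (by positivity) k2.ne', Real.log_mul (by positivity) (by positivity),
        Real.log_pow, Real.log_pow, Real.log_pow, Real.log_prod (fun j hj => (hWpos j hj).ne'),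
        ← hl] at k1
      exact_mod_cast k1
    have hcast1 : ((4 * (9 * r ^ 2) ^ 2 : ℕ) : ℝ) = 4 * (9 * (r : ℝ) ^ 2) ^ 2 := by push_cast; ring
    have hcast2 : ((8 * (9 * r ^ 2) ^ 2 - 4 * (9 * r ^ 2) : ℕ) : ℝ) =
        8 * (9 * (r : ℝ) ^ 2) ^ 2 - 4 * (9 * (r : ℝ) ^ 2) := by
      rw [Nat.cast_sub]
      · push_cast
        ring
      · have k1 : 1 ≤ 9 * r ^ 2 := by
          have : 0 < r ^ 2 := by positivity
          omega
        nlinarith
    rw [hcast1, hcast2] at hlogD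
    have hη : r * (r + 1) / 2 * (1 - 1 / (r : ℝ)) ^ (8 * r) ≤ (r : ℝ) * (r + 1) / 2 / 2937 := by
      have k1 := pow_le_exp (r := r) (by omega)
      calc (r : ℝ) * (r + 1) / 2 * (1 - 1 / (r : ℝ)) ^ (8 * r) ≤
          (r : ℝ) * (r + 1) / 2 * (1 / 2937) := by gcongr
        _ = _ := by ring
    have hfin := final (κ := κ) (L := L) (l := l) (r := r)
      (η := r * (r + 1) / 2 * (1 - 1 / (r : ℝ)) ^ (8 * r)) (g := g)
      (A0 := (1000000 * (1 + κ) + A)) (A1 := C1 * ((r : ℝ) + 8 * r) ^ C1)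
      (y := Real.log ‖TT r M α‖) hκ hL0 hl0 hlL hr1 hr2 hη
      (by rw [hg]; exact card_good hκ hr1) (by positivity) (by positivity) (by
        rw [← he]
        linarith)
    linarith
  · -- small `N`
    push Not at hs
    have k1 : κ / 5 * L ≤ (N : ℝ) ^ (κ / 5) := by
      rw [hexpN]
      have := Real.add_one_le_exp (κ / 5 * L)
      linarith
    have k2 : κ / 5 * L ≤ 9 * (r : ℝ) ^ 2 := by
      push_cast at hs
      have k3 : (0 : ℝ) < (N : ℝ) ^ (κ / 5) := by positivity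
      linarith
    have k3 : (r : ℝ) ^ 2 ≤ 289 * κ ^ 2 := by
      calc (r : ℝ) ^ 2 ≤ (17 * κ) ^ 2 := by gcongr
        _ = 289 * κ ^ 2 := by ring
    have k4 : L ≤ 26010 * (1 + κ) ^ 2 := by
      have k5 : κ / 5 * L ≤ κ / 5 * (13005 * κ) := by
        calc κ / 5 * L ≤ 9 * (289 * κ ^ 2) := by linarith
          _ = κ / 5 * (13005 * κ) := by ring
      have k6 : L ≤ 13005 * κ := le_of_mul_le_mul_left k5 (by positivity)
      nlinarith
    have k5 : 1 / 10 ^ 10 / (1 + κ) ^ 2 * L ≤ 1 := by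
      have k6 : (0 : ℝ) < (1 + κ) ^ 2 := by positivity
      rw [div_div, div_mul_eq_mul_div, div_le_one (by positivity)]
      nlinarith
    have k6 : Real.log ‖TT r M α‖ ≤ 2 * l := by
      refine (Real.log_le_log hT (TT_le _ _ _)).trans (le_of_eq ?_)
      rw [Real.log_pow, hl]
      norm_num
    have k7 : (1 : ℝ) ≤ (1 + A) * (C * (1 + κ) ^ C) := by
      have k8 : (1 : ℝ) ≤ C := by
        have : 1 ≤ C := by rw [hC]; unfold consC; omega
        exact_mod_cast this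
      have k9 : (1 : ℝ) ≤ (1 + κ) ^ C := one_le_pow₀ (by linarith)
      have k10 : (1 : ℝ) ≤ C * (1 + κ) ^ C := by nlinarith
      nlinarith
    linarith

end Pool.Agent.Helper478.Surds
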